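import Pool.Agent.helper87.HS.Defs

/-!
# Necessity
-/

set_option autoImplicit false

open MeasureTheory Filter Topology

universe u

namespace Pool.Agent.helper87.HS

/-- transport of a counterexample to every universe -/
lemma not_rec {X : Type} [MeasurableSpace X] (μ : Measure X) [IsProbabilityMeasure μ]
    (T : ℕ → X → X) (hT : IsAction μ T) (A : Set X) (hA : MeasurableSet A) (hpos : 0 < μ A)
    (a c : ℕ) (b d : ℤ)
    (hno : ∀ n k l : ℕ, 0 < n → 0 < k → 0 < l → (k : ℤ) = a * n + b → (l : ℤ) = c * n + d →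
      ∀ x, ¬ (T k x ∈ A ∧ T l x ∈ A)) : ¬ Recurrent.{u} a c b d := by
  intro h
  have hup : Measurable (ULift.up : X → ULift.{u} X) := measurable_up
  have : IsProbabilityMeasure (μ.map (ULift.up : X → ULift.{u} X)) :=
    Measure.isProbabilityMeasure_map hup.aemeasurable
  have hact : IsAction (μ.map (ULift.up : X → ULift.{u} X)) (fun m x => ⟨T m x.down⟩) := by
    constructor
    · funext x
      simp [hT.one]
    · intro m n hm hn
      funext x
      simp [hT.mul m n hm hn]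
    · intro m hm
      have h1 : Measurable (fun x : ULift.{u} X => (⟨T m x.down⟩ : ULift.{u} X)) :=
        hup.comp ((hT.pres m hm).measurable.comp measurable_down)
      refine ⟨h1, ?_⟩
      rw [Measure.map_map h1 hup]
      have h2 : ((fun x : ULift.{u} X => (⟨T m x.down⟩ : ULift.{u} X)) ∘ (ULift.up : X → ULift.{u} X)) =
          ULift.up ∘ T m := rfl
      rw [h2, ← Measure.map_map hup (hT.pres m hm).measurable, (hT.pres m hm).map_eq]
  obtain ⟨n, k, l, h1, h2, h3, h4, h5, h6⟩ := h (ULift.{u} X) (μ.map ULift.up) _ hact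
    (ULift.down ⁻¹' A) (measurable_down hA) (by
      rw [Measure.map_apply hup (measurable_down hA)]
      exact hpos)
  have h7 : ((fun x : ULift.{u} X => (⟨T k x.down⟩ : ULift.{u} X)) ⁻¹' (ULift.down ⁻¹' A) ∩
      (fun x : ULift.{u} X => (⟨T l x.down⟩ : ULift.{u} X)) ⁻¹' (ULift.down ⁻¹' A)) = ∅ := by
    ext x
    constructor
    · rintro ⟨h8, h9⟩
      exact hno n k l h1 h2 h3 h4 h5 x.down ⟨h8, h9⟩
    · intro h8
      exact absurd h8 (Set.notMem_empty x)
  rw [h7, measure_empty] at h6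
  exact lt_irrefl _ h6

/-- actions on finite sets -/
lemma fin_not_rec {X : Type} [Fintype X] (σ : ℕ → X → X) (h1 : σ 1 = id)
    (hmul : ∀ m n : ℕ, 0 < m → 0 < n → σ (m * n) = σ m ∘ σ n)
    (hb : ∀ m : ℕ, 0 < m → Function.Bijective (σ m)) (x₀ : X) (a c : ℕ) (b d : ℤ)
    (hno : ∀ n k l : ℕ, 0 < n → 0 < k → 0 < l → (k : ℤ) = a * n + b → (l : ℤ) = c * n + d →
      ∀ x, ¬ (σ k x = x₀ ∧ σ l x = x₀)) : ¬ Recurrent.{u} a c b d := by
  classical
  let _ : MeasurableSpace X := ⊤
  have : Nonempty X := ⟨x₀⟩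
  have hcard : (Fintype.card X : ENNReal) ≠ 0 := by
    exact_mod_cast Fintype.card_ne_zero
  have : IsProbabilityMeasure ((Fintype.card X : ENNReal)⁻¹ • (Measure.count : Measure X)) := by
    constructor
    rw [Measure.smul_apply, Measure.count_univ, smul_eq_mul]
    simp only [ENat.card_eq_coe_fintype_card]
    exact ENNReal.inv_mul_cancel hcard (by simp)
  refine not_rec ((Fintype.card X : ENNReal)⁻¹ • (Measure.count : Measure X)) σ ⟨h1, hmul, fun m hm => ?_⟩
    {x₀} trivial ?_ a c b d (fun n k l g1 g2 g3 g4 g5 x => hno n k l g1 g2 g3 g4 g5 x)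
  · refine ⟨measurable_from_top, ?_⟩
    rw [Measure.map_smul]
    congr 1
    ext s _
    rw [Measure.map_apply measurable_from_top MeasurableSpace.measurableSet_top]
    have h2 : s = σ m '' (σ m ⁻¹' s) := (Set.image_preimage_eq s (hb m hm).2).symm
    conv_rhs => rw [h2]
    rw [Measure.count_injective_image (hb m hm).1]
  · rw [Measure.smul_apply, Measure.count_singleton, smul_eq_mul, mul_one]
    simp

/-- the case of different valuations -/
lemma val_not_rec (a c : ℕ) (b d : ℤ) (p β δ : ℕ) (hβδ : β ≠ δ)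
    (hk : ∀ n k : ℕ, 0 < n → 0 < k → (k : ℤ) = a * n + b → k.factorization p = β)
    (hl : ∀ n l : ℕ, 0 < n → 0 < l → (l : ℤ) = c * n + d → l.factorization p = δ) :
    ¬ Recurrent.{u} a c b d := by
  have : NeZero (β + δ + 1) := ⟨by omega⟩
  refine fin_not_rec (X := ZMod (β + δ + 1)) (fun m x => (m.factorization p : ZMod (β + δ + 1)) + x) ?_ ?_ ?_ 0
    a c b d ?_
  · funext x
    simp
  · intro m n hm hn
    funext x
    simp only [Function.comp, Nat.factorization_mul hm.ne' hn.ne', Finsupp.add_apply, Nat.cast_add]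
    ring
  · intro m _
    exact (Equiv.addLeft (m.factorization p : ZMod (β + δ + 1))).bijective
  · rintro n k l hn hk0 hl0 hk1 hl1 x ⟨h1, h2⟩
    simp only [hk n k hn hk0 hk1, hl n l hn hl0 hl1] at h1 h2
    have h3 : (β : ZMod (β + δ + 1)) = (δ : ZMod (β + δ + 1)) := by
      have := h1.trans h2.symm
      exact add_right_cancel this
    rw [ZMod.natCast_eq_natCast_iff'] at h3
    rw [Nat.mod_eq_of_lt (by omega), Nat.mod_eq_of_lt (by omega)] at h3
    exact hβδ h3

/-- the case of units -/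
lemma unit_not_rec (a : ℕ) (b d : ℤ) (p : ℕ) (hp : p.Prime) (hbd : b ≠ d) (hpa : p ∣ a)
    (hb : ¬ (p : ℤ) ∣ b) (hd : ¬ (p : ℤ) ∣ d) : ¬ Recurrent.{u} a a b d := by
  set q : ℕ := p ^ ((b - d).natAbs + 1) with hq
  have hqpos : 0 < q := pow_pos hp.pos _
  have : NeZero q := ⟨hqpos.ne'⟩
  have hlt : (b - d).natAbs < q := by
    have h1 := Nat.lt_pow_self (n := (b - d).natAbs + 1) hp.one_lt
    omega
  have hunit : ∀ m : ℕ, 0 < m → IsUnit ((m / p ^ m.factorization p : ℕ) : ZMod q) := by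
    intro m hm
    rw [ZMod.isUnit_iff_coprime]
    exact (Nat.Coprime.pow_left _ (Nat.coprime_ordCompl hp hm.ne')).symm
  have hk : ∀ (e : ℤ) (n k : ℕ), ¬ (p : ℤ) ∣ e → (k : ℤ) = a * n + e → k / p ^ k.factorization p = k := by
    intro e n k he hk1
    have h1 : ¬ p ∣ k := by
      intro h
      apply he
      have h2 : (p : ℤ) ∣ (k : ℤ) := Int.natCast_dvd_natCast.2 h
      have h3 : (p : ℤ) ∣ (a : ℤ) * n := (Int.natCast_dvd_natCast.2 hpa).mul_right _
      have h4 : e = (k : ℤ) - a * n := by rw [hk1]; ring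
      rw [h4]
      exact dvd_sub h2 h3
    rw [Nat.factorization_eq_zero_of_not_dvd h1]
    simp
  refine fin_not_rec (X := ZMod q) (fun m x => ((m / p ^ m.factorization p : ℕ) : ZMod q) * x) ?_ ?_ ?_ 1
    a a b d ?_
  · funext x
    simp
  · intro m n hm hn
    funext x
    simp only [Function.comp]
    rw [Nat.ordCompl_mul, Nat.cast_mul, mul_assoc]
  · intro m hm
    exact IsUnit.isUnit_iff_mulLeft_bijective.1 (hunit m hm)
  · rintro n k l hn hk0 hl0 hk1 hl1 x ⟨h1, h2⟩
    simp only [hk b n k hb hk1, hk d n l hd hl1] at h1 h2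
    have h3 : (k : ZMod q) = (l : ZMod q) := by
      calc (k : ZMod q) = k * (l * x) := by rw [h2, mul_one]
        _ = l * (k * x) := by ring
        _ = l := by rw [h1, mul_one]
    have h4 : ((b - d : ℤ) : ZMod q) = 0 := by
      have h5 : (b - d : ℤ) = (k : ℤ) - l := by rw [hk1, hl1]; ring
      rw [h5]
      push_cast
      rw [h3, sub_self]
    rw [ZMod.intCast_zmod_eq_zero_iff_dvd] at h4
    have h6 : q ∣ (b - d).natAbs := Int.natCast_dvd.1 h4
    have h7 : 0 < (b - d).natAbs := Int.natAbs_pos.2 (sub_ne_zero.2 hbd)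
    exact absurd (Nat.le_of_dvd h7 h6) (not_le.2 hlt)

/-- `a = c`, `b ≠ d`, `a ∤ b d` -/
lemma same_not_rec (a : ℕ) (b d : ℤ) (hbd : b ≠ d)
    (hg : ∀ k : ℤ, k ∣ (a : ℤ) → k ∣ b → k ∣ d → IsUnit k) (hdvd : ¬ (a : ℤ) ∣ b * d) :
    ¬ Recurrent.{u} a a b d := by
  have h0 : ¬ a ∣ (b * d).natAbs := fun h => hdvd (Int.natCast_dvd.2 h)
  rw [Nat.dvd_iff_prime_pow_dvd_dvd] at h0
  push Not at h0
  obtain ⟨p, α, hp, h1, h2⟩ := h0
  have hb0 : b ≠ 0 := by rintro rfl; simp at h2
  have hd0 : d ≠ 0 := by rintro rfl; simp at h2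
  have hα : α ≠ 0 := by rintro rfl; simp at h2
  have hpa : p ∣ a := (dvd_pow_self p hα).trans h1
  have hlt : b.natAbs.factorization p + d.natAbs.factorization p < α := by
    by_contra hcon
    push Not at hcon
    apply h2
    rw [Int.natAbs_mul, hp.pow_dvd_iff_le_factorization
      (Nat.mul_ne_zero (Int.natAbs_ne_zero.2 hb0) (Int.natAbs_ne_zero.2 hd0)),
      Nat.factorization_mul (Int.natAbs_ne_zero.2 hb0) (Int.natAbs_ne_zero.2 hd0)]
    exact hcon
  -- the valuation of `a n + e`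
  have hval : ∀ (e : ℤ) (n k : ℕ), e ≠ 0 → e.natAbs.factorization p < α → 0 < k →
      (k : ℤ) = a * n + e → k.factorization p = e.natAbs.factorization p := by
    intro e n k he hlt' hk0 hk1
    have hiff : ∀ j : ℕ, j ≤ α → (p ^ j ∣ k ↔ p ^ j ∣ e.natAbs) := by
      intro j hj
      have h3 : ((p ^ j : ℕ) : ℤ) ∣ (a : ℤ) * n :=
        (Int.natCast_dvd_natCast.2 ((pow_dvd_pow p hj).trans h1)).mul_right _
      rw [← Int.natCast_dvd_natCast, ← Int.natCast_dvd, hk1]
      exact dvd_add_right h3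
    have he' : e.natAbs ≠ 0 := Int.natAbs_ne_zero.2 he
    apply le_antisymm
    · by_contra hcon
      push Not at hcon
      have h3 : p ^ (e.natAbs.factorization p + 1) ∣ k :=
        (hp.pow_dvd_iff_le_factorization hk0.ne').2 hcon
      rw [hiff _ hlt', hp.pow_dvd_iff_le_factorization he'] at h3
      omega
    · rw [← hp.pow_dvd_iff_le_factorization hk0.ne', hiff _ hlt'.le]
      exact Nat.ordProj_dvd _ _
  by_cases hβδ : b.natAbs.factorization p = d.natAbs.factorization p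
  · -- both are zero
    have hone : ¬ ((p : ℤ) ∣ b ∧ (p : ℤ) ∣ d) := by
      rintro ⟨h3, h4⟩
      have h5 := hg p (Int.natCast_dvd_natCast.2 hpa) h3 h4
      rw [Int.ofNat_isUnit, Nat.isUnit_iff] at h5
      exact hp.one_lt.ne' h5
    have hz : ∀ e : ℤ, e ≠ 0 → ((p : ℤ) ∣ e ↔ 1 ≤ e.natAbs.factorization p) := by
      intro e he
      rw [Int.natCast_dvd, ← hp.pow_dvd_iff_le_factorization (Int.natAbs_ne_zero.2 he), pow_one]
    rw [hz b hb0, hz d hd0] at hone
    refine unit_not_rec a b d p hp hbd hpa ?_ ?_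
    · rw [hz b hb0]; omega
    · rw [hz d hd0]; omega
  · exact val_not_rec a a b d p _ _ hβδ
      (fun n k _ hk0 hk1 => hval b n k hb0 (by omega) hk0 hk1)
      (fun n l _ hl0 hl1 => hval d n l hd0 (by omega) hl0 hl1)

/-- rotations of a torus -/
lemma torus_not_rec (a c : ℕ) (b d : ℤ) (s : ℕ) (θ : ℕ → ℝ)
    (hno : ∀ n k l : ℕ, 0 < n → 0 < k → 0 < l → (k : ℤ) = a * n + b → (l : ℤ) = c * n + d →
      ∃ j : ℕ, j < s ∧ |θ j * (Real.log k - Real.log l) - 1 / 2| < 1 / 8) :
    ¬ Recurrent.{u} a c b d := by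
  have : IsProbabilityMeasure (volume : Measure UnitAddCircle) := ⟨by
    rw [AddCircle.measure_univ]; simp⟩
  refine not_rec (X := Fin s → UnitAddCircle) volume
    (fun m x j => ((θ j * Real.log m : ℝ) : UnitAddCircle) + x j) ?_
    {x | ∀ j, ‖x j‖ < 1 / 8} ?_ ?_ a c b d ?_
  · constructor
    · funext x j
      simp
    · intro m n hm hn
      funext x j
      simp only [Function.comp]
      rw [Nat.cast_mul, Real.log_mul (by exact_mod_cast hm.ne') (by exact_mod_cast hn.ne'), mul_add,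
        AddCircle.coe_add, add_assoc]
    · intro m _
      exact measurePreserving_add_left (volume : Measure (Fin s → UnitAddCircle))
        (fun j => ((θ j * Real.log m : ℝ) : UnitAddCircle))
  · refine IsOpen.measurableSet ?_
    simp only [Set.ofPred_forall]
    exact isOpen_iInter_of_finite fun j => isOpen_lt (continuous_apply j).norm continuous_const
  · refine IsOpen.measure_pos _ ?_ ⟨0, fun j => by simp⟩
    simp only [Set.ofPred_forall]
    exact isOpen_iInter_of_finite fun j => isOpen_lt (continuous_apply j).norm continuous_const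
  · rintro n k l hn hk0 hl0 hk1 hl1 x ⟨h1, h2⟩
    obtain ⟨j, hj, hθ⟩ := hno n k l hn hk0 hl0 hk1 hl1
    have h3 := h1 ⟨j, hj⟩
    have h4 := h2 ⟨j, hj⟩
    simp only at h3 h4
    have h5 : ‖((θ j * (Real.log k - Real.log l) : ℝ) : UnitAddCircle)‖ < 1 / 4 := by
      have h6 : ((θ j * (Real.log k - Real.log l) : ℝ) : UnitAddCircle) =
          (((θ j * Real.log k : ℝ) : UnitAddCircle) + x ⟨j, hj⟩) -
            (((θ j * Real.log l : ℝ) : UnitAddCircle) + x ⟨j, hj⟩) := by
        rw [mul_sub, AddCircle.coe_sub]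
        abel
      rw [h6]
      refine (norm_sub_le _ _).trans_lt ?_
      linarith
    rw [UnitAddCircle.norm_eq] at h5
    set y := θ j * (Real.log k - Real.log l) with hy
    rw [abs_lt] at hθ h5
    have h7 : ((0 : ℤ) : ℝ) < (round y : ℤ) := by push_cast; linarith
    have h8 : ((round y : ℤ) : ℝ) < ((1 : ℤ) : ℝ) := by push_cast; linarith
    have h9 : 0 < round y := by exact_mod_cast h7
    have h10 : round y < 1 := by exact_mod_cast h8
    omega

/-- `a ≠ c` and no trivial solution -/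
lemma diff_not_rec (a c : ℕ) (b d : ℤ) (ha : 0 < a) (hc : 0 < c) (hac : a ≠ c)
    (h1 : ∀ n : ℕ, 0 < n → 0 < (a : ℤ) * n + b → (a : ℤ) * n + b ≠ c * n + d) :
    ¬ Recurrent.{u} a c b d := by
  have haR : (0 : ℝ) < a := by exact_mod_cast ha
  have hcR : (0 : ℝ) < c := by exact_mod_cast hc
  have hlog : Real.log ((a : ℝ) / c) ≠ 0 := by
    rw [Real.log_ne_zero]
    refine ⟨by positivity, ?_, ?_⟩
    · rw [Ne, div_eq_one_iff_eq hcR.ne']
      exact_mod_cast hac
    · have : (0 : ℝ) < (a : ℝ) / c := by positivity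
      linarith
  -- the limit
  have hlim : Tendsto (fun n : ℕ => ((a : ℝ) * n + b) / ((c : ℝ) * n + d)) atTop (𝓝 ((a : ℝ) / c)) := by
    have h2 : Tendsto (fun n : ℕ => ((a : ℝ) + b * (n : ℝ)⁻¹) / ((c : ℝ) + d * (n : ℝ)⁻¹)) atTop
        (𝓝 (((a : ℝ) + b * 0) / ((c : ℝ) + d * 0))) := by
      have h3 : Tendsto (fun n : ℕ => (n : ℝ)⁻¹) atTop (𝓝 0) := tendsto_inv_atTop_nhds_zero_nat
      refine ((tendsto_const_nhds.add (h3.const_mul _))).div ((tendsto_const_nhds.add (h3.const_mul _))) ?_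
      simpa using hcR.ne'
    simp only [mul_zero, add_zero] at h2
    refine h2.congr' ?_
    filter_upwards [eventually_gt_atTop 0] with n hn
    have hnR : (n : ℝ) ≠ 0 := by exact_mod_cast hn.ne'
    have e1 : (a : ℝ) * n + b = ((a : ℝ) + b * (n : ℝ)⁻¹) * n := by field_simp
    have e2 : (c : ℝ) * n + d = ((c : ℝ) + d * (n : ℝ)⁻¹) * n := by field_simp
    rw [e1, e2, mul_div_mul_right _ _ hnR]
  have hlim2 : Tendsto (fun n : ℕ => 1 / (2 * Real.log ((a : ℝ) / c)) *
      Real.log (((a : ℝ) * n + b) / ((c : ℝ) * n + d))) atTop (𝓝 (1 / 2)) := by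
    have h3 := ((Real.continuousAt_log (x := (a : ℝ) / c) (by positivity)).tendsto.comp hlim).const_mul
      (1 / (2 * Real.log ((a : ℝ) / c)))
    have h4 : 1 / (2 * Real.log ((a : ℝ) / c)) * Real.log ((a : ℝ) / c) = 1 / 2 := by
      field_simp
    rw [h4] at h3
    exact h3
  rw [Metric.tendsto_atTop] at hlim2
  obtain ⟨N, hN⟩ := hlim2 (1 / 8) (by norm_num)
  refine torus_not_rec a c b d (N + 1) (fun j => if j = 0 then 1 / (2 * Real.log ((a : ℝ) / c)) else
    1 / (2 * (Real.log ((a : ℝ) * j + b) - Real.log ((c : ℝ) * j + d)))) ?_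
  intro n k l hn hk0 hl0 hk1 hl1
  have hkR : (k : ℝ) = a * n + b := by exact_mod_cast hk1
  have hlR : (l : ℝ) = c * n + d := by exact_mod_cast hl1
  have hk0R : (0 : ℝ) < k := by exact_mod_cast hk0
  have hl0R : (0 : ℝ) < l := by exact_mod_cast hl0
  by_cases hnN : n ≤ N
  · refine ⟨n, by omega, ?_⟩
    simp only [hn.ne', if_false]
    rw [← hkR, ← hlR]
    have h5 : Real.log k - Real.log l ≠ 0 := by
      intro h6
      have h7 : (k : ℝ) = l := Real.log_injOn_pos (Set.mem_Ioi.2 hk0R) (Set.mem_Ioi.2 hl0R) (sub_eq_zero.1 h6)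
      have h8 : k = l := by exact_mod_cast h7
      apply h1 n hn
      · rw [← hk1]; exact_mod_cast hk0
      · rw [← hk1, ← hl1, h8]
    have h6 : 1 / (2 * (Real.log (k : ℝ) - Real.log l)) * (Real.log k - Real.log l) = 1 / 2 := by
      field_simp
    rw [h6]
    norm_num
  · refine ⟨0, by omega, ?_⟩
    have h5 := hN n (by omega)
    rw [Real.dist_eq, ← hkR, ← hlR, Real.log_div hk0R.ne' hl0R.ne'] at h5
    simpa using h5

/-- necessity -/
theorem nec (a c : ℕ) (b d : ℤ) (ha : 0 < a) (hc : 0 < c)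
    (hg : ∀ k : ℤ, k ∣ (a : ℤ) → k ∣ (c : ℤ) → k ∣ b → k ∣ d → IsUnit k) (h : Recurrent.{u} a c b d) :
    (a = c ∧ (a : ℤ) ∣ b * d) ∨ ∃ n : ℕ, 0 < n ∧ 0 < (a : ℤ) * n + b ∧ (a : ℤ) * n + b = c * n + d := by
  by_contra hcon
  push Not at hcon
  obtain ⟨h1, h2⟩ := hcon
  by_cases hac : a = c
  · subst hac
    refine same_not_rec a b d ?_ (fun k g1 g2 g3 => hg k g1 g1 g2 g3) (h1 rfl) h
    rintro rfl
    have haZ : (1 : ℤ) ≤ (a : ℤ) := by exact_mod_cast ha
    have hb : -|b| ≤ b := neg_abs_le b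
    have habs : 0 ≤ |b| := abs_nonneg b
    have hcast : ((b.natAbs : ℕ) : ℤ) = |b| := Int.natCast_natAbs b
    refine h2 (b.natAbs + 1) (by omega) ?_ rfl
    push_cast
    nlinarith
  · exact diff_not_rec a c b d ha hc hac h2 h

end Pool.Agent.helper87.HS
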