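import Mathlib

/-!
# The chain lemma (copied from the proof of the frozen statement of MP_4fa6ed_nt)
-/

set_option autoImplicit false

namespace Pool.Agent.helper87.HS

/-- Splitting off the part of `N` composed of primes dividing `R`. -/
lemma exists_split (R : ℕ) : ∀ N : ℕ, 0 < N → ∃ u v m : ℕ, N = u * v ∧ Nat.Coprime v R ∧
    u ∣ R ^ m := by
  intro N
  induction N using Nat.strong_induction_on with
  | _ N ih =>
    intro hN
    by_cases hc : Nat.Coprime N R
    · exact ⟨1, N, 0, by simp, hc, by simp⟩
    · set g := Nat.gcd N R with hg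
      have hgpos : 0 < g := Nat.gcd_pos_of_pos_left _ hN
      have hg1 : 1 < g := by
        rcases Nat.lt_or_ge 1 g with h | h
        · exact h
        · exact absurd (le_antisymm h hgpos) hc
      have hgN : g ∣ N := Nat.gcd_dvd_left _ _
      obtain ⟨w, hw⟩ := hgN
      have hwpos : 0 < w := Nat.pos_of_ne_zero (by rintro rfl; simp at hw; omega)
      have hwlt : w < N := by
        rw [hw]; nlinarith
      obtain ⟨u, v, m, h1, h2, h3⟩ := ih w hwlt hwpos
      refine ⟨g * u, v, m + 1, ?_, h2, ?_⟩
      · rw [hw, h1]; ring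
      · rw [pow_succ, mul_comm (R ^ m) R]
        exact Nat.mul_dvd_mul (Nat.gcd_dvd_right _ _) h3

/-- For coprime `P`, `R` and every `r` there is a set `F` of `r` positive integers such that
for all `x < y` in `F` one has `P * (y - x) ∣ x` and `R * (y - x) ∣ y`. -/
lemma chain (P R : ℕ) (hP : 0 < P) (hR : 0 < R) (hPR : Nat.Coprime P R) (r : ℕ) :
    ∃ F : Finset ℕ, F.card = r ∧ (∀ x ∈ F, 0 < x) ∧
      ∀ x ∈ F, ∀ y ∈ F, x < y → P * (y - x) ∣ x ∧ R * (y - x) ∣ y := by
  induction r with
  | zero => exact ⟨∅, by simp⟩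
  | succ r ih =>
    obtain ⟨F, hcard, hpos, hF⟩ := ih
    -- the product of everything
    set N : ℕ := P * ∏ x ∈ F, x with hN
    have hNpos : 0 < N := Nat.mul_pos hP (Finset.prod_pos hpos)
    obtain ⟨u, v, m, huv, hvR, huR⟩ := exists_split R N hNpos
    have hvpos : 0 < v := Nat.pos_of_ne_zero (by rintro rfl; simp at huv; omega)
    have hupos : 0 < u := Nat.pos_of_ne_zero (by rintro rfl; simp at huv; omega)
    have huvc : Nat.Coprime u v :=
      Nat.Coprime.coprime_dvd_left huR (hvR.symm.pow_left m)
    have hPN : P ∣ N := Dvd.intro _ rfl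
    have hxN : ∀ x ∈ F, x ∣ N := fun x hx => (Finset.dvd_prod_of_mem _ hx).mul_left P
    have hPu : Nat.Coprime P u :=
      (Nat.Coprime.coprime_dvd_left huR (hPR.symm.pow_left m)).symm
    have hPv : P ∣ v := by
      rw [huv] at hPN
      exact hPu.dvd_of_dvd_mul_left hPN
    -- choose t
    obtain ⟨t, ht0, ht1, htpos⟩ : ∃ t : ℕ, v ^ 2 ∣ t ∧ Nat.Coprime t R ∧ 0 < t :=
      ⟨v ^ 2, dvd_rfl, hvR.pow_left 2, by positivity⟩
    -- for each x, the cofactor
    set c : ℕ → ℕ := fun x => Nat.gcd x v with hc
    have hcx : ∀ x, c x ∣ x := fun x => Nat.gcd_dvd_left _ _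
    have hcv : ∀ x, c x ∣ v := fun x => Nat.gcd_dvd_right _ _
    have hcpos : ∀ x, 0 < c x := fun x => Nat.gcd_pos_of_pos_right _ hvpos
    have hct : ∀ x, c x ∣ R * x + t := fun x =>
      dvd_add ((hcx x).mul_left R) (((hcv x).trans (Dvd.intro_left (v ^ 1) (by ring))).trans ht0)
    set h : ℕ → ℕ := fun x => (R * x + t) / c x with hh
    have hch : ∀ x, R * x + t = c x * h x := fun x => (Nat.mul_div_cancel' (hct x)).symm
    -- h x is coprime to v and R
    have hhv : ∀ x ∈ F, Nat.Coprime (h x) v := by
      intro x hx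
      -- x = c x * (x / c x), x / c x coprime to v
      obtain ⟨w, hw⟩ := hcx x
      have hwv : Nat.Coprime w v := by
        -- x ∣ u * v so w divides u
        have h1 : c x * w ∣ u * v := by
          rw [← hw, ← huv]; exact hxN x hx
        -- gcd (x, v) = c x; 
        obtain ⟨v', hv'⟩ := hcv x
        have h2 : w ∣ u * v' := by
          have : c x * w ∣ c x * (u * v') := by
            calc c x * w ∣ u * v := h1
              _ = c x * (u * v') := by rw [hv']; ring_nf
          exact Nat.dvd_of_mul_dvd_mul_left (hcpos x) this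
        have h3 : Nat.Coprime w v' := by
          have h4 := Nat.coprime_div_gcd_div_gcd (m := x) (n := v) (hcpos x)
          have h5 : x / Nat.gcd x v = w := Nat.div_eq_of_eq_mul_right (hcpos x) hw
          have h6 : v / Nat.gcd x v = v' := Nat.div_eq_of_eq_mul_right (hcpos x) hv'
          rw [h5, h6] at h4
          exact h4
        have h4 : w ∣ u := h3.dvd_of_dvd_mul_right h2
        exact Nat.Coprime.coprime_dvd_left h4 huvc
      obtain ⟨v', hv'⟩ := hcv x
      obtain ⟨s, hs⟩ := ht0
      have h1 : h x = R * w + v * (v' * s) := by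
        have : c x * h x = c x * (R * w + v * (v' * s)) := by
          rw [← hch x, hs]
          conv_lhs => rw [hw]
          have : v ^ 2 * s = c x * (v * (v' * s)) := by
            calc v ^ 2 * s = v * v * s := by ring
              _ = (c x * v') * v * s := by rw [← hv']
              _ = c x * (v * (v' * s)) := by ring
          rw [this]; ring
        exact Nat.eq_of_mul_eq_mul_left (hcpos x) this
      rw [h1]
      rw [Nat.coprime_add_mul_left_left]
      exact Nat.Coprime.mul_left hvR.symm hwv
    have hRxt : ∀ x, Nat.Coprime (R * x + t) R := by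
      intro x
      rw [add_comm, Nat.coprime_add_mul_left_left]
      exact ht1
    have hhR : ∀ x, Nat.Coprime (h x) R := fun x =>
      Nat.Coprime.coprime_dvd_left (Dvd.intro_left (c x) (hch x).symm) (hRxt x)
    -- The big modulus
    set Z : ℕ := N ^ 2 * R ^ 2 with hZ
    have hZpos : 0 < Z := by positivity
    have hhN : ∀ x ∈ F, Nat.Coprime (h x) N := by
      intro x hx
      rw [huv]
      refine Nat.Coprime.mul_right ?_ (hhv x hx)
      exact (Nat.Coprime.coprime_dvd_left huR ((hhR x).symm.pow_left m)).symm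
    have hhZ : ∀ x ∈ F, Nat.Coprime (h x) Z := fun x hx =>
      Nat.Coprime.mul_right ((hhN x hx).pow_right 2) ((hhR x).pow_right 2)
    set H : ℕ := ∏ x ∈ F, h x with hH
    have hHZ : Nat.Coprime H Z := Nat.Coprime.prod_left hhZ
    have hhpos : ∀ x, 0 < h x := by
      intro x
      rcases Nat.eq_zero_or_pos (h x) with h0 | h0
      · have := hch x
        rw [h0, mul_zero] at this
        omega
      · exact h0
    have hHpos : 0 < H := Finset.prod_pos (fun x _ => hhpos x)
    -- choose M
    obtain ⟨M, hMZ, hMH, hMt⟩ : ∃ M : ℕ, Z ∣ M ∧ M ≡ t [MOD H] ∧ t < M := by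
      obtain ⟨M0, hM0⟩ := Nat.chineseRemainder hHZ t 0
      refine ⟨M0 + (t + 1) * (H * Z), ?_, ?_, ?_⟩
      · refine dvd_add ?_ ?_
        · exact (Nat.modEq_zero_iff_dvd).1 hM0.2
        · exact Dvd.intro_left ((t + 1) * H) (by ring)
      · have : (t + 1) * (H * Z) ≡ 0 [MOD H] :=
          (Nat.modEq_zero_iff_dvd).2 (Dvd.intro ((t + 1) * Z) (by ring))
        simpa using hM0.1.add this
      · have : 1 ≤ H * Z := Nat.mul_pos hHpos hZpos
        nlinarith
    have hMsub : ∀ x ∈ F, h x ∣ M - t := by
      intro x hx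
      have h1 : H ∣ M - t := (Nat.modEq_iff_dvd' hMt.le).1 hMH.symm
      exact (Finset.dvd_prod_of_mem _ hx).trans h1
    -- the translated elements
    have hinj : Function.Injective (fun x : ℕ => M + R * x) := by
      intro x y hxy
      simp only at hxy
      have : R * x = R * y := by omega
      exact Nat.eq_of_mul_eq_mul_left hR this
    refine ⟨insert (M - t) (F.image (fun x => M + R * x)), ?_, ?_, ?_⟩
    · rw [Finset.card_insert_of_notMem, Finset.card_image_of_injective _ hinj, hcard]
      intro hmem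
      rw [Finset.mem_image] at hmem
      obtain ⟨x, _, hx⟩ := hmem
      omega
    · intro x hx
      rw [Finset.mem_insert, Finset.mem_image] at hx
      rcases hx with rfl | ⟨y, _, rfl⟩
      · omega
      · omega
    · -- key divisibilities
      have key1 : ∀ x ∈ F, P * (R * x + t) ∣ M - t := by
        intro x hx
        rw [hch x, ← mul_assoc]
        refine Nat.Coprime.mul_dvd_of_dvd_of_dvd ?_ ?_ (hMsub x hx)
        · refine Nat.Coprime.mul_left ?_ ?_
          · exact (Nat.Coprime.coprime_dvd_right hPN (hhN x hx)).symm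
          · exact (Nat.Coprime.coprime_dvd_right (((hcv x).trans (Dvd.intro_left u huv.symm)))
              (hhN x hx)).symm
        · refine Nat.dvd_sub ?_ ?_
          · refine Dvd.dvd.trans ?_ hMZ
            refine Dvd.dvd.trans ?_ (Dvd.intro _ rfl : N ^ 2 ∣ Z)
            rw [pow_two]
            exact Nat.mul_dvd_mul hPN ((hcv x).trans (Dvd.intro_left u huv.symm))
          · refine Dvd.dvd.trans ?_ ht0
            rw [pow_two]
            exact Nat.mul_dvd_mul hPv (hcv x)
      have key2 : ∀ x ∈ F, R * (R * x + t) ∣ M + R * x := by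
        intro x hx
        refine Nat.Coprime.mul_dvd_of_dvd_of_dvd (hRxt x).symm ?_ ?_
        · refine dvd_add ?_ (Dvd.intro _ rfl)
          refine Dvd.dvd.trans ?_ hMZ
          exact Dvd.intro_left (N ^ 2 * R) (by rw [hZ]; ring)
        · have h1 : M + R * x = (M - t) + (R * x + t) := by omega
          rw [h1]
          exact dvd_add ((Dvd.intro_left P rfl).trans (key1 x hx)) dvd_rfl
      have hRN : ∀ x ∈ F, R * R * x ∣ M := by
        intro x hx
        refine Dvd.dvd.trans ?_ hMZ
        obtain ⟨w, hw⟩ := hxN x hx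
        exact ⟨N * w, by rw [hZ]; calc N ^ 2 * R ^ 2 = N * N * R ^ 2 := by ring
                _ = N * (x * w) * R ^ 2 := by rw [← hw]
                _ = R * R * x * (N * w) := by ring⟩
      have hPRN : ∀ x ∈ F, P * R * x ∣ M := by
        intro x hx
        refine Dvd.dvd.trans ?_ hMZ
        obtain ⟨w, hw⟩ := hxN x hx
        obtain ⟨w', hw'⟩ := hPN
        exact ⟨R * w * w', by rw [hZ]; calc N ^ 2 * R ^ 2 = N * N * R ^ 2 := by ring
                _ = (P * w') * (x * w) * R ^ 2 := by rw [← hw, ← hw']
                _ = P * R * x * (R * w * w') := by ring⟩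
      intro x' hx' y' hy' hlt
      rw [Finset.mem_insert, Finset.mem_image] at hx' hy'
      rcases hx' with rfl | ⟨x, hx, rfl⟩
      · rcases hy' with rfl | ⟨y, hy, rfl⟩
        · omega
        · have h1 : M + R * y - (M - t) = R * y + t := by omega
          rw [h1]
          exact ⟨key1 y hy, key2 y hy⟩
      · rcases hy' with rfl | ⟨y, hy, rfl⟩
        · omega
        · have hxy : x < y := by
            by_contra hcon
            have : R * y ≤ R * x := Nat.mul_le_mul_left _ (by omega)
            omega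
          have h1 : M + R * y - (M + R * x) = R * (y - x) := by
            rw [Nat.mul_sub]; omega
          rw [h1]
          obtain ⟨hd1, hd2⟩ := hF x hx y hy hxy
          have hd3 : (y - x) ∣ x := (Dvd.intro_left P rfl).trans hd1
          constructor
          · refine dvd_add ?_ ?_
            · refine Dvd.dvd.trans ?_ (hPRN x hx)
              rw [mul_assoc]
              exact Nat.mul_dvd_mul_left _ (Nat.mul_dvd_mul_left _ hd3)
            · rw [← mul_assoc, mul_comm P R, mul_assoc]
              exact Nat.mul_dvd_mul_left _ hd1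
          · refine dvd_add ?_ ?_
            · refine Dvd.dvd.trans ?_ (hRN x hx)
              rw [mul_assoc]
              exact Nat.mul_dvd_mul_left _ (Nat.mul_dvd_mul_left _ hd3)
            · exact Nat.mul_dvd_mul_left _ hd2

/-- Auxiliary form of the recurrence statement for `b ≠ d`: with `e` one of the two shifts. -/
lemma solve_n (a : ℕ) (e f : ℤ) (ha : 0 < a)
    (hcop : ∀ k : ℤ, k ∣ (a : ℤ) → k ∣ e → k ∣ f → IsUnit k)
    (hdvd : (a : ℤ) ∣ e * f) (P R : ℕ)
    (hP : P = a / Nat.gcd a f.natAbs) (hR : R = Nat.gcd a f.natAbs) :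
    (P : ℤ) ∣ e ∧ (R : ℤ) ∣ f ∧ P * R = a ∧ Nat.Coprime P R := by
  subst hP hR
  set g := Nat.gcd a f.natAbs with hg
  have hgpos : 0 < g := Nat.gcd_pos_of_pos_left _ ha
  have hga : g ∣ a := Nat.gcd_dvd_left _ _
  have hgf : g ∣ f.natAbs := Nat.gcd_dvd_right _ _
  have hgf' : (g : ℤ) ∣ f := Int.natCast_dvd.2 hgf
  have hPR : a / g * g = a := Nat.div_mul_cancel hga
  have hPe : (a / g) ∣ e.natAbs := by
    have h1 : a ∣ e.natAbs * f.natAbs := by
      have := Int.natCast_dvd.1 hdvd
      rwa [Int.natAbs_mul] at this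
    obtain ⟨f', hf'⟩ := hgf
    have h2 : g * (a / g) ∣ g * (e.natAbs * f') := by
      rw [mul_comm g (a / g), hPR]
      refine h1.trans (dvd_of_eq ?_)
      rw [hf']; ring
    have h3 : (a / g) ∣ e.natAbs * f' := Nat.dvd_of_mul_dvd_mul_left hgpos h2
    have h4 : Nat.Coprime (a / g) f' := by
      have h5 := Nat.coprime_div_gcd_div_gcd (m := a) (n := f.natAbs) hgpos
      have h6 : f.natAbs / Nat.gcd a f.natAbs = f' := Nat.div_eq_of_eq_mul_right hgpos hf'
      rw [h6] at h5
      exact h5
    exact h4.dvd_of_dvd_mul_right h3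
  have hPe' : ((a / g : ℕ) : ℤ) ∣ e := Int.natCast_dvd.2 hPe
  refine ⟨hPe', hgf', hPR, ?_⟩
  set c := Nat.gcd (a / g) g with hc
  have h1 : c ∣ a / g := Nat.gcd_dvd_left _ _
  have h2 : c ∣ g := Nat.gcd_dvd_right _ _
  have h3 : IsUnit (c : ℤ) := by
    apply hcop
    · exact Int.natCast_dvd_natCast.2 (h2.trans hga)
    · exact (Int.natCast_dvd_natCast.2 h1).trans hPe'
    · exact (Int.natCast_dvd_natCast.2 h2).trans hgf'
  exact Int.ofNat_isUnit.1 h3 |> Nat.isUnit_iff.1

end Pool.Agent.helper87.HS
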