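import Mathlib

/-!
# Multiplicative recurrence along ratios of linear forms (MP_4fa6ed_nt): definitions
-/

set_option autoImplicit false

open MeasureTheory

universe u

namespace Pool.Agent.helper87.HS

/-- a measure-preserving action of the semigroup of the positive integers under multiplication -/
structure IsAction {X : Type u} [MeasurableSpace X] (μ : Measure X) (T : ℕ → X → X) : Prop where
  one : T 1 = id
  mul : ∀ m n : ℕ, 0 < m → 0 < n → T (m * n) = T m ∘ T n
  pres : ∀ m : ℕ, 0 < m → MeasurePreserving (T m) μ μ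

/-- `{(a n + b) / (c n + d)}` is a set of measurable multiplicative recurrence -/
def Recurrent (a c : ℕ) (b d : ℤ) : Prop :=
  ∀ (X : Type u) [MeasurableSpace X] (μ : Measure X) [IsProbabilityMeasure μ] (T : ℕ → X → X),
    IsAction μ T → ∀ A : Set X, MeasurableSet A → 0 < μ A →
      ∃ n k l : ℕ, 0 < n ∧ 0 < k ∧ 0 < l ∧ (k : ℤ) = a * n + b ∧ (l : ℤ) = c * n + d ∧
        0 < μ (T k ⁻¹' A ∩ T l ⁻¹' A)

/-- uniform Khintchine recurrence: for every `ε > 0` there is `N` such that for all actions and all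
measurable sets `A` some `n ≤ N` satisfies `μ (T_(an+b)⁻¹ A ∩ T_(cn+d)⁻¹ A) ≥ μ(A)² - ε` -/
def Khintchine (a c : ℕ) (b d : ℤ) : Prop :=
  ∀ ε : ℝ, 0 < ε → ∃ N : ℕ, ∀ (X : Type u) [MeasurableSpace X] (μ : Measure X)
    [IsProbabilityMeasure μ] (T : ℕ → X → X), IsAction μ T → ∀ A : Set X, MeasurableSet A →
      ∃ n k l : ℕ, 0 < n ∧ n ≤ N ∧ 0 < k ∧ 0 < l ∧ (k : ℤ) = a * n + b ∧ (l : ℤ) = c * n + d ∧
        μ.real A ^ 2 - ε ≤ μ.real (T k ⁻¹' A ∩ T l ⁻¹' A)

end Pool.Agent.helper87.HS
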