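import Pool.Agent.helper87.HS.Chain
import Pool.Agent.helper87.HS.Defs

/-!
# The Khintchine part
-/

set_option autoImplicit false

open MeasureTheory

universe u

namespace Pool.Agent.helper87.HS

/-- second moment: among `r` sets of measure `m` two meet in measure at least `m ^ 2 - ε` -/
lemma two_meet {X : Type u} [MeasurableSpace X] (μ : Measure X) [IsProbabilityMeasure μ]
    (F : Finset ℕ) (B : ℕ → Set X) (m ε : ℝ) (hB : ∀ x ∈ F, MeasurableSet (B x))
    (hm : ∀ x ∈ F, μ.real (B x) = m) (hε : 0 < ε) (hr : 1 < ((F.card : ℝ) - 1) * ε)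
    (hc : 0 < F.card) :
    ∃ x ∈ F, ∃ y ∈ F, x < y ∧ m ^ 2 - ε ≤ μ.real (B x ∩ B y) := by
  classical
  by_contra hcon
  push Not at hcon
  have hsym : ∀ x ∈ F, ∀ y ∈ F, x ≠ y → μ.real (B x ∩ B y) < m ^ 2 - ε := by
    intro x hx y hy hne
    rcases lt_or_gt_of_ne hne with h | h
    · exact hcon x hx y hy h
    · rw [Set.inter_comm]; exact hcon y hy x hx h
  -- the function
  let g : ℕ → X → ℝ := fun i => fun x => (B i).indicator (fun _ => (1 : ℝ)) x - m
  have hint : ∀ i ∈ F, Integrable ((B i).indicator (fun _ => (1 : ℝ))) μ := fun i hi =>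
    (integrable_const (1 : ℝ)).indicator (hB i hi)
  have hprod : ∀ i ∈ F, ∀ j ∈ F, (fun x => g i x * g j x) =
      fun x => (B i ∩ B j).indicator (fun _ => (1 : ℝ)) x - m * (B i).indicator (fun _ => (1 : ℝ)) x
        - m * (B j).indicator (fun _ => (1 : ℝ)) x + m ^ 2 := by
    intro i _ j _
    funext x
    have h1 : (B i ∩ B j).indicator (fun _ => (1 : ℝ)) x =
        (B i).indicator (fun _ => (1 : ℝ)) x * (B j).indicator (fun _ => (1 : ℝ)) x := by
      by_cases hi : x ∈ B i <;> by_cases hj : x ∈ B j <;> simp [Set.indicator, hi, hj]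
    rw [h1]
    simp only [g]
    ring
  have hI : ∀ i ∈ F, ∀ j ∈ F, Integrable (fun x => g i x * g j x) μ := by
    intro i hi j hj
    rw [hprod i hi j hj]
    exact ((((integrable_const (1 : ℝ)).indicator ((hB i hi).inter (hB j hj))).sub
      ((hint i hi).const_mul m)).sub ((hint j hj).const_mul m)).add (integrable_const _)
  have hval : ∀ i ∈ F, ∀ j ∈ F, ∫ x, g i x * g j x ∂μ = μ.real (B i ∩ B j) - m ^ 2 := by
    intro i hi j hj
    rw [hprod i hi j hj, integral_add, integral_sub, integral_sub]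
    · rw [integral_const_mul, integral_const_mul, integral_indicator_const _ (hB i hi),
        integral_indicator_const _ (hB j hj), integral_indicator_const _ ((hB i hi).inter (hB j hj)),
        hm i hi, hm j hj]
      simp
      ring
    · exact (integrable_const (1 : ℝ)).indicator ((hB i hi).inter (hB j hj))
    · exact (hint i hi).const_mul m
    · exact ((integrable_const (1 : ℝ)).indicator ((hB i hi).inter (hB j hj))).sub
        ((hint i hi).const_mul m)
    · exact (hint j hj).const_mul m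
    · exact (((integrable_const (1 : ℝ)).indicator ((hB i hi).inter (hB j hj))).sub
        ((hint i hi).const_mul m)).sub ((hint j hj).const_mul m)
    · exact integrable_const _
  have hsq : 0 ≤ ∫ x, (∑ i ∈ F, g i x) * (∑ j ∈ F, g j x) ∂μ :=
    integral_nonneg fun x => mul_self_nonneg _
  have hexp : ∫ x, (∑ i ∈ F, g i x) * (∑ j ∈ F, g j x) ∂μ =
      ∑ i ∈ F, ∑ j ∈ F, (μ.real (B i ∩ B j) - m ^ 2) := by
    simp_rw [Finset.sum_mul_sum]
    rw [integral_finsetSum]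
    · refine Finset.sum_congr rfl fun i hi => ?_
      rw [integral_finsetSum]
      · exact Finset.sum_congr rfl fun j hj => hval i hi j hj
      · exact fun j hj => hI i hi j hj
    · intro i hi
      exact integrable_finsetSum _ fun j hj => hI i hi j hj
  rw [hexp] at hsq
  -- bound every row
  have hrow : ∀ i ∈ F, ∑ j ∈ F, (μ.real (B i ∩ B j) - m ^ 2) ≤ 1 - ((F.card : ℝ) - 1) * ε := by
    intro i hi
    rw [← Finset.add_sum_erase _ _ hi]
    have h1 : μ.real (B i ∩ B i) - m ^ 2 ≤ 1 := by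
      rw [Set.inter_self, hm i hi]
      have h2 : m ≤ 1 := by rw [← hm i hi]; exact measureReal_le_one
      nlinarith [sq_nonneg m]
    have h2 : ∑ j ∈ F.erase i, (μ.real (B i ∩ B j) - m ^ 2) ≤ ∑ j ∈ F.erase i, (-ε) := by
      refine Finset.sum_le_sum fun j hj => ?_
      have h3 := hsym i hi j (Finset.mem_of_mem_erase hj) (Finset.ne_of_mem_erase hj).symm
      linarith
    rw [Finset.sum_const, Finset.card_erase_of_mem hi, nsmul_eq_mul, Nat.cast_sub hc] at h2
    push_cast at h2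
    linarith
  have htot : ∑ i ∈ F, ∑ j ∈ F, (μ.real (B i ∩ B j) - m ^ 2) < 0 := by
    refine (Finset.sum_le_sum hrow).trans_lt ?_
    rw [Finset.sum_const, nsmul_eq_mul]
    have h3 : (0 : ℝ) < F.card := by exact_mod_cast hc
    nlinarith
  linarith

/-- recurrence along `k, k + 1` with `P ∣ k`, `R ∣ k + 1`, uniformly -/
lemma pigeon (P R : ℕ) (hP : 0 < P) (hR : 0 < R) (hPR : Nat.Coprime P R) (ε : ℝ) (hε : 0 < ε) :
    ∃ K : ℕ, ∀ (X : Type u) [MeasurableSpace X] (μ : Measure X) [IsProbabilityMeasure μ]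
      (T : ℕ → X → X), IsAction μ T → ∀ A : Set X, MeasurableSet A →
      ∃ k : ℕ, 0 < k ∧ k ≤ K ∧ P ∣ k ∧ R ∣ k + 1 ∧
        μ.real A ^ 2 - ε ≤ μ.real (T k ⁻¹' A ∩ T (k + 1) ⁻¹' A) := by
  obtain ⟨r, hr⟩ : ∃ r : ℕ, 1 / ε + 1 < r := exists_nat_gt _
  obtain ⟨F, hcard, hpos, hF⟩ := chain P R hP hR hPR r
  refine ⟨F.sup id, fun X _ μ _ T hT A hA => ?_⟩
  have h0 : (0 : ℝ) < 1 / ε := by positivity
  have hr0 : 0 < r := by
    have : (0 : ℝ) < r := by linarith
    exact_mod_cast this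
  have hr1 : 1 < ((F.card : ℝ) - 1) * ε := by
    rw [hcard]
    have h1 : 1 / ε < (r : ℝ) - 1 := by linarith
    have h2 := mul_lt_mul_of_pos_right h1 hε
    rwa [one_div, inv_mul_cancel₀ hε.ne'] at h2
  have hBm : ∀ x ∈ F, MeasurableSet (T x ⁻¹' A) := fun x hx => (hT.pres x (hpos x hx)).measurable hA
  have hBμ : ∀ x ∈ F, μ.real (T x ⁻¹' A) = μ.real A := by
    intro x hx
    simp only [Measure.real]
    rw [(hT.pres x (hpos x hx)).measure_preimage hA.nullMeasurableSet]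
  obtain ⟨x, hx, y, hy, hxy, hmeet⟩ := two_meet μ F (fun x => T x ⁻¹' A) (μ.real A) ε hBm hBμ hε hr1
    (by rw [hcard]; exact hr0)
  obtain ⟨hd1, hd2⟩ := hF x hx y hy hxy
  have hxpos := hpos x hx
  have hgpos : 0 < y - x := by omega
  obtain ⟨k', hk'⟩ := hd1
  obtain ⟨g, hg⟩ : ∃ g, g = y - x := ⟨_, rfl⟩
  rw [← hg] at hk' hd2 hgpos
  have hyg : y = x + g := by omega
  have hxk : x = (P * k') * g := by rw [hk']; ring
  have hyk : y = (P * k' + 1) * g := by rw [hyg]; nth_rewrite 1 [hxk]; ring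
  have hkpos : 0 < P * k' := Nat.pos_of_ne_zero (by intro h0; rw [h0, zero_mul] at hxk; omega)
  have hRk : R ∣ P * k' + 1 := by
    have h1 : g * R ∣ g * (P * k' + 1) := by
      rw [mul_comm g R, mul_comm g (P * k' + 1), ← hyk]; exact hd2
    exact Nat.dvd_of_mul_dvd_mul_left hgpos h1
  have hkx : P * k' ≤ x := by
    have h1 : P * k' * 1 ≤ P * k' * g := Nat.mul_le_mul_left _ hgpos
    omega
  have hle : x ≤ F.sup id := Finset.le_sup (f := id) hx
  refine ⟨P * k', hkpos, hkx.trans hle, Dvd.intro _ rfl, hRk, ?_⟩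
  have hm : MeasurableSet (T (P * k') ⁻¹' A ∩ T (P * k' + 1) ⁻¹' A) :=
    ((hT.pres _ hkpos).measurable hA).inter ((hT.pres _ (Nat.succ_pos _)).measurable hA)
  have h2 : T x ⁻¹' A ∩ T y ⁻¹' A = T g ⁻¹' (T (P * k') ⁻¹' A ∩ T (P * k' + 1) ⁻¹' A) := by
    rw [hxk, hyk, hT.mul _ _ hkpos hgpos, hT.mul _ _ (Nat.succ_pos _) hgpos, Set.preimage_comp,
      Set.preimage_comp, Set.preimage_inter]
  have h3 : μ.real (T x ⁻¹' A ∩ T y ⁻¹' A) = μ.real (T (P * k') ⁻¹' A ∩ T (P * k' + 1) ⁻¹' A) := by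
    rw [h2]
    simp only [Measure.real]
    rw [(hT.pres g hgpos).measure_preimage hm.nullMeasurableSet]
  rw [← h3]
  exact hmeet

/-- Khintchine recurrence if `a ∣ e f` for the pair of the forms `a n + e < a n + f` -/
lemma khin_lt (a : ℕ) (e f : ℤ) (ha : 0 < a) (hef : e < f)
    (hcop : ∀ k : ℤ, k ∣ (a : ℤ) → k ∣ e → k ∣ f → IsUnit k) (hdvd : (a : ℤ) ∣ e * f)
    (ε : ℝ) (hε : 0 < ε) :
    ∃ N : ℕ, ∀ (X : Type u) [MeasurableSpace X] (μ : Measure X) [IsProbabilityMeasure μ]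
      (T : ℕ → X → X), IsAction μ T → ∀ A : Set X, MeasurableSet A →
      ∃ n k l : ℕ, 0 < n ∧ n ≤ N ∧ 0 < k ∧ 0 < l ∧ (k : ℤ) = a * n + e ∧ (l : ℤ) = a * n + f ∧
        μ.real A ^ 2 - ε ≤ μ.real (T k ⁻¹' A ∩ T l ⁻¹' A) := by
  have haZ : (0 : ℤ) < (a : ℤ) := by exact_mod_cast ha
  obtain ⟨h1, h2, h3, h4⟩ := solve_n a e f ha hcop hdvd _ _ rfl rfl
  set P := a / Nat.gcd a f.natAbs with hP
  set R := Nat.gcd a f.natAbs with hR
  have hRpos : 0 < R := Nat.gcd_pos_of_pos_left _ ha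
  have hPpos : 0 < P := Nat.pos_of_ne_zero (by rintro h0; rw [h0, zero_mul] at h3; omega)
  set L := R * (e.natAbs + 1) + 1 with hL
  have hLR : Nat.Coprime L R := by
    rw [hL, add_comm]
    exact (Nat.coprime_add_mul_left_left 1 R _).2 (Nat.coprime_one_left R)
  obtain ⟨K, hK⟩ := pigeon.{u} (P * L) R (Nat.mul_pos hPpos (by omega)) hRpos
    (Nat.Coprime.mul_left h4 hLR) ε hε
  obtain ⟨D, hD⟩ : ∃ D : ℕ, (D : ℤ) = f - e := ⟨(f - e).toNat, Int.toNat_of_nonneg (by omega)⟩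
  have hDpos : 0 < D := by
    have : (0 : ℤ) < D := by rw [hD]; omega
    exact_mod_cast this
  refine ⟨D * K + e.natAbs, fun X _ μ _ T hT A hA => ?_⟩
  obtain ⟨k, hk0, hkK, hPk, hRk, hk1⟩ := hK X μ T hT A hA
  have hPk' : (P : ℤ) ∣ (k : ℤ) := Int.natCast_dvd_natCast.2 ((Dvd.intro _ rfl).trans hPk)
  have hRk' : (R : ℤ) ∣ (k : ℤ) + 1 := by exact_mod_cast hRk
  have hkbig : e.natAbs < k := by
    have h5 : P * L ≤ k := Nat.le_of_dvd hk0 hPk
    have h6 : L ≤ P * L := Nat.le_mul_of_pos_left _ hPpos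
    have h7 : e.natAbs + 1 ≤ R * (e.natAbs + 1) := Nat.le_mul_of_pos_left _ hRpos
    omega
  have hkbig' : |e| < (k : ℤ) := by
    rw [← Int.natCast_natAbs]; exact_mod_cast hkbig
  have hdiv : (a : ℤ) ∣ D * k - e := by
    have h5 : (P : ℤ) ∣ D * k - e := dvd_sub (hPk'.mul_left _) h1
    have h6 : (R : ℤ) ∣ D * k - e := by
      have : (D : ℤ) * k - e = D * (k + 1) - f := by rw [hD]; ring
      rw [this]
      exact dvd_sub (hRk'.mul_left _) h2
    have h7 : IsCoprime (P : ℤ) (R : ℤ) := Nat.isCoprime_iff_coprime.2 h4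
    have h8 := h7.mul_dvd h5 h6
    rw [← h3]
    exact_mod_cast h8
  obtain ⟨n, hn⟩ := hdiv
  have hb1 : e ≤ |e| := le_abs_self e
  have hb2 : -|e| ≤ e := neg_abs_le e
  have hD1 : (1 : ℤ) ≤ D := by exact_mod_cast hDpos
  have hkZ : (0 : ℤ) < k := by exact_mod_cast hk0
  have hnum : (D : ℤ) * k - e > 0 := by nlinarith
  have hnpos : 0 < n := by
    rw [hn] at hnum
    exact (mul_pos_iff_of_pos_left haZ).1 hnum
  lift n to ℕ using hnpos.le
  have hnle : (n : ℤ) ≤ D * K + e.natAbs := by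
    have h5 : (n : ℤ) ≤ a * n := by nlinarith
    have h6 : (k : ℤ) ≤ K := by exact_mod_cast hkK
    have h7 : ((e.natAbs : ℕ) : ℤ) = |e| := Int.natCast_natAbs e
    rw [h7]
    nlinarith
  refine ⟨n, D * k, D * (k + 1), by exact_mod_cast hnpos, by exact_mod_cast hnle, Nat.mul_pos hDpos hk0,
    Nat.mul_pos hDpos (Nat.succ_pos _), ?_, ?_, ?_⟩
  · push_cast
    linarith
  · push_cast
    rw [hD] at hn ⊢
    linarith
  · have hm : MeasurableSet (T k ⁻¹' A ∩ T (k + 1) ⁻¹' A) :=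
      ((hT.pres _ hk0).measurable hA).inter ((hT.pres _ (Nat.succ_pos _)).measurable hA)
    have h9 : T (D * k) ⁻¹' A ∩ T (D * (k + 1)) ⁻¹' A = T D ⁻¹' (T k ⁻¹' A ∩ T (k + 1) ⁻¹' A) := by
      rw [mul_comm D k, mul_comm D (k + 1), hT.mul _ _ hk0 hDpos, hT.mul _ _ (Nat.succ_pos _) hDpos,
        Set.preimage_comp, Set.preimage_comp, Set.preimage_inter]
    rw [h9]
    simp only [Measure.real] at hk1 ⊢
    rw [(hT.pres D hDpos).measure_preimage hm.nullMeasurableSet]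
    exact hk1

/-- sufficiency, with uniform Khintchine recurrence -/
theorem khin (a c : ℕ) (b d : ℤ) (ha : 0 < a)
    (hg : ∀ k : ℤ, k ∣ (a : ℤ) → k ∣ (c : ℤ) → k ∣ b → k ∣ d → IsUnit k)
    (h : (a = c ∧ (a : ℤ) ∣ b * d) ∨ ∃ n : ℕ, 0 < n ∧ 0 < (a : ℤ) * n + b ∧ (a : ℤ) * n + b = c * n + d) :
    Khintchine.{u} a c b d := by
  have key : (∃ n : ℕ, 0 < n ∧ 0 < (a : ℤ) * n + b ∧ (a : ℤ) * n + b = c * n + d) →
      Khintchine.{u} a c b d := by
    rintro ⟨n, hn, hpos, heq⟩ ε hε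
    refine ⟨n, fun X _ μ _ T hT A hA => ?_⟩
    have e1 : (((a : ℤ) * n + b).toNat : ℤ) = a * n + b := Int.toNat_of_nonneg hpos.le
    have hk : 0 < ((a : ℤ) * n + b).toNat := by
      have : (0 : ℤ) < (((a : ℤ) * n + b).toNat : ℤ) := by rw [e1]; exact hpos
      exact_mod_cast this
    refine ⟨n, ((a : ℤ) * n + b).toNat, ((a : ℤ) * n + b).toNat, hn, le_rfl, hk, hk, e1, e1.trans heq, ?_⟩
    rw [Set.inter_self]
    have h1 : μ.real (T ((a : ℤ) * n + b).toNat ⁻¹' A) = μ.real A := by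
      simp only [Measure.real]
      rw [(hT.pres _ hk).measure_preimage hA.nullMeasurableSet]
    rw [h1]
    have h2 : μ.real A ≤ 1 := measureReal_le_one
    have h3 : 0 ≤ μ.real A := measureReal_nonneg
    nlinarith
  rcases h with ⟨rfl, hdvd⟩ | h
  · rcases lt_trichotomy b d with hlt | rfl | hlt
    · intro ε hε
      exact khin_lt.{u} a b d ha hlt (fun k h1 h2 h3 => hg k h1 h1 h2 h3) hdvd ε hε
    · refine key ⟨b.natAbs + 1, by omega, ?_, rfl⟩
      have haZ : (1 : ℤ) ≤ (a : ℤ) := by exact_mod_cast ha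
      have hb : -|b| ≤ b := neg_abs_le b
      have habs : 0 ≤ |b| := abs_nonneg b
      have hcast : ((b.natAbs : ℕ) : ℤ) = |b| := Int.natCast_natAbs b
      push_cast
      nlinarith
    · intro ε hε
      obtain ⟨N, hN⟩ := khin_lt.{u} a d b ha hlt (fun k h1 h2 h3 => hg k h1 h1 h3 h2)
        (by rw [mul_comm]; exact hdvd) ε hε
      refine ⟨N, fun X _ μ _ T hT A hA => ?_⟩
      obtain ⟨n, k, l, h1, h2, h3, h4, h5, h6, h7⟩ := hN X μ T hT A hA
      exact ⟨n, l, k, h1, h2, h4, h3, h6, h5, by rw [Set.inter_comm]; exact h7⟩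
  · exact key h

/-- Khintchine recurrence implies recurrence -/
theorem recurrent_of_khin (a c : ℕ) (b d : ℤ) (h : Khintchine.{u} a c b d) : Recurrent.{u} a c b d := by
  intro X _ μ _ T hT A hA hμA
  have h0 : 0 < μ.real A := by
    rw [Measure.real]
    exact ENNReal.toReal_pos hμA.ne' (measure_ne_top _ _)
  obtain ⟨N, hN⟩ := h (μ.real A ^ 2 / 2) (by positivity)
  obtain ⟨n, k, l, h1, -, h3, h4, h5, h6, h7⟩ := hN X μ T hT A hA
  refine ⟨n, k, l, h1, h3, h4, h5, h6, ?_⟩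
  have h8 : 0 < μ.real (T k ⁻¹' A ∩ T l ⁻¹' A) := by
    have : 0 < μ.real A ^ 2 := by positivity
    linarith
  rw [Measure.real] at h8
  exact (ENNReal.toReal_pos_iff.1 h8).1

end Pool.Agent.helper87.HS
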